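import Pool.Agent.H458.AR.Num

/-!
# Project AR (helper458), part BXR: box count with congruence conditions (helper263)

`bxr (h : S_LQ) : S_BXR`. The small lemmas on reductions modulo `Q` are those of
`Pool.Agent.N50.PQ` (library module `R_pool_sql_team_seeded_63374d34.N50.PQ.Box`).
-/

set_option autoImplicit false
set_option linter.all false

open Matrix Polynomial
open scoped Classical

namespace Pool.Agent.H263.AR458

open Pool.Agent.H458.AR
open Pool.Agent.N922.PQ (IsPr GoodS)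

/-! ### Reduction modulo `Q` -/

lemma pr_nat {Q : ℤ} (h : IsPr Q) : Q.natAbs.Prime := Int.prime_iff_natAbs_prime.1 h.2

lemma pr_cast {Q : ℤ} (h : IsPr Q) : ((Q.natAbs : ℕ) : ℤ) = Q := Int.natAbs_of_nonneg h.1.le

/-- reduction modulo `Q` -/
abbrev rd (Q : ℤ) : ℤ →+* ZMod Q.natAbs := Int.castRingHom (ZMod Q.natAbs)

lemma rd_zero (Q x : ℤ) : rd Q x = 0 ↔ Q ∣ x := by
  show ((x : ℤ) : ZMod Q.natAbs) = 0 ↔ Q ∣ x
  rw [CharP.intCast_eq_zero_iff (ZMod Q.natAbs) Q.natAbs, Int.natAbs_dvd]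

lemma rd_eq (Q x y : ℤ) : rd Q x = rd Q y ↔ Q ∣ x - y := by
  rw [← rd_zero, map_sub, sub_eq_zero]

lemma rd_surj {Q : ℤ} (z : ZMod Q.natAbs) : ∃ x : ℤ, rd Q x = z :=
  ZMod.intCast_surjective z

/-- integers with the same residues modulo the `Q ∈ S` and the same quotient by the product -/
lemma crt_inj {S : Finset ℤ} (hS : ∀ Q ∈ S, IsPr Q) {f g : ℤ}
    (h : ∀ Q ∈ S, rd Q f = rd Q g)
    (hd : f / (∏ Q ∈ S, Q) = g / (∏ Q ∈ S, Q)) : f = g := by
  have hdvd : (∏ Q ∈ S, Q) ∣ f - g := by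
    apply Finset.prod_dvd_of_coprime
    · intro Q hQ Q' hQ' hne
      have h1 := pr_nat (hS Q hQ)
      have h2 := pr_nat (hS Q' hQ')
      show IsCoprime Q Q'
      rw [← pr_cast (hS Q hQ), ← pr_cast (hS Q' hQ'), Nat.isCoprime_iff_coprime,
        Nat.coprime_primes h1 h2]
      intro he
      apply hne
      rw [← pr_cast (hS Q hQ), ← pr_cast (hS Q' hQ'), he]
    · intro Q hQ
      rw [← rd_zero, map_sub, h Q hQ, sub_self]
  have hmod : f % (∏ Q ∈ S, Q) = g % (∏ Q ∈ S, Q) :=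
    Int.emod_eq_emod_iff_emod_sub_eq_zero.2 (Int.emod_eq_zero_of_dvd hdvd)
  rw [← Int.mul_ediv_add_emod f (∏ Q ∈ S, Q), ← Int.mul_ediv_add_emod g (∏ Q ∈ S, Q), hmod, hd]

/-! ### The characteristic polynomial -/

section chr

variable {R R' : Type} [CommRing R] [CommRing R']

lemma chr_map (φ : R →+* R') {G B : Matrix (Fin 3) (Fin 3) R} {a b : R} (h : ChR G B a b) :
    ChR (G.map φ) (B.map φ) (φ a) (φ b) := by
  have h1 := congrArg (Polynomial.mapRingHom φ) h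
  have e1 : (Polynomial.mapRingHom φ).mapMatrix
      ((X : R[X]) • G.map (C : R →+* R[X]) - B.map (C : R →+* R[X])) =
      (X : R'[X]) • (G.map φ).map (C : R' →+* R'[X]) - (B.map φ).map (C : R' →+* R'[X]) := by
    apply Matrix.ext
    intro i j
    simp [Matrix.sub_apply, Matrix.smul_apply, Matrix.map_apply]
  have e2 : (G.map φ).det = φ G.det := by
    rw [RingHom.map_det]
    rfl
  rw [RingHom.map_det, e1] at h1
  unfold ChR
  rw [h1, e2]
  simp

lemma chr_eval {G B : Matrix (Fin 3) (Fin 3) R} {a b : R} (h : ChR G B a b) (t : R) :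
    (t • G - B).det = G.det * (t ^ 3 + a * t + b) := by
  have h1 := congrArg (Polynomial.evalRingHom t) h
  have e1 : (Polynomial.evalRingHom t).mapMatrix
      ((X : R[X]) • G.map (C : R →+* R[X]) - B.map (C : R →+* R[X])) = t • G - B := by
    apply Matrix.ext
    intro i j
    simp [Matrix.sub_apply, Matrix.smul_apply, Matrix.map_apply]
    exact mul_comm _ _
  rw [RingHom.map_det, e1] at h1
  rw [h1]
  simp

end chr

lemma chr_ab {G B : Matrix (Fin 3) (Fin 3) ℤ} {a b a' b' : ℤ} (hG : G.det ≠ 0)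
    (h : ChR G B a b) (h' : ChR G B a' b') : a = a' ∧ b = b' := by
  have h0 := (chr_eval h 0).symm.trans (chr_eval h' 0)
  have h1 := (chr_eval h 1).symm.trans (chr_eval h' 1)
  have h2 := mul_left_cancel₀ hG h0
  have h3 := mul_left_cancel₀ hG h1
  constructor
  · linarith
  · linarith

lemma chr_tr {G B : Matrix (Fin 3) (Fin 3) ℤ} {a b : ℤ} (h : ChR G B a b) :
    (G.adjugate * B).trace = 0 := by
  have h0 := chr_eval h 0
  have h1 := chr_eval h 1
  have h2 := chr_eval h (-1)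
  have h3 : (2 : ℤ) * (G.adjugate * B).trace = 0 := by
    rw [Matrix.adjugate_fin_three, Matrix.trace_fin_three]
    rw [Matrix.det_fin_three] at h0 h1 h2
    simp only [Matrix.sub_apply, Matrix.smul_apply, smul_eq_mul, Matrix.mul_apply,
      Fin.sum_univ_three, Matrix.of_apply, Matrix.cons_val', Matrix.cons_val_zero,
      Matrix.cons_val_one, Matrix.cons_val_two, Matrix.head_cons, Matrix.tail_cons,
      Matrix.cons_val_fin_one, Matrix.empty_val', Matrix.head_fin_const, Matrix.cons_val] at *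
    linarith
  linarith

lemma pivot {A D : Matrix (Fin 3) (Fin 3) ℤ} (hA : A.IsSymm) {p : Fin 3 × Fin 3}
    (hple : p.1 ≤ p.2) (hp : A p.1 p.2 ≠ 0) (hD : D.IsSymm) (htr : (A * D).trace = 0)
    (h0 : ∀ i j, i ≤ j → (i, j) ≠ p → D i j = 0) : D = 0 := by
  have hD1 : D 1 0 = D 0 1 := hD.apply 0 1
  have hD2 : D 2 0 = D 0 2 := hD.apply 0 2
  have hD3 : D 2 1 = D 1 2 := hD.apply 1 2
  have hA1 : A 1 0 = A 0 1 := hA.apply 0 1
  have hA2 : A 2 0 = A 0 2 := hA.apply 0 2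
  have hA3 : A 2 1 = A 1 2 := hA.apply 1 2
  rw [Matrix.trace_fin_three] at htr
  simp only [Matrix.mul_apply, Fin.sum_univ_three, hD1, hD2, hD3, hA1, hA2, hA3] at htr
  have key : D 0 0 = 0 ∧ D 0 1 = 0 ∧ D 0 2 = 0 ∧ D 1 1 = 0 ∧ D 1 2 = 0 ∧ D 2 2 = 0 := by
    have g := fun i j hij hne => h0 i j hij hne
    obtain ⟨k, l⟩ := p
    fin_cases k <;> fin_cases l
    · have e1 := h0 0 1 (by decide) (by decide)
      have e2 := h0 0 2 (by decide) (by decide)
      have e3 := h0 1 1 (by decide) (by decide)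
      have e4 := h0 1 2 (by decide) (by decide)
      have e5 := h0 2 2 (by decide) (by decide)
      have hp' : A 0 0 ≠ 0 := hp
      rw [e1, e2, e3, e4, e5] at htr
      have h5 : A 0 0 * D 0 0 = 0 := by linarith
      exact ⟨(mul_eq_zero.1 h5).resolve_left hp', e1, e2, e3, e4, e5⟩
    · have e1 := h0 0 0 (by decide) (by decide)
      have e2 := h0 0 2 (by decide) (by decide)
      have e3 := h0 1 1 (by decide) (by decide)
      have e4 := h0 1 2 (by decide) (by decide)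
      have e5 := h0 2 2 (by decide) (by decide)
      have hp' : A 0 1 ≠ 0 := hp
      rw [e1, e2, e3, e4, e5] at htr
      have h5 : A 0 1 * D 0 1 = 0 := by linarith
      exact ⟨e1, (mul_eq_zero.1 h5).resolve_left hp', e2, e3, e4, e5⟩
    · have e1 := h0 0 0 (by decide) (by decide)
      have e2 := h0 0 1 (by decide) (by decide)
      have e3 := h0 1 1 (by decide) (by decide)
      have e4 := h0 1 2 (by decide) (by decide)
      have e5 := h0 2 2 (by decide) (by decide)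
      have hp' : A 0 2 ≠ 0 := hp
      rw [e1, e2, e3, e4, e5] at htr
      have h5 : A 0 2 * D 0 2 = 0 := by linarith
      exact ⟨e1, e2, (mul_eq_zero.1 h5).resolve_left hp', e3, e4, e5⟩
    · exact absurd hple (by decide)
    · have e1 := h0 0 0 (by decide) (by decide)
      have e2 := h0 0 1 (by decide) (by decide)
      have e3 := h0 0 2 (by decide) (by decide)
      have e4 := h0 1 2 (by decide) (by decide)
      have e5 := h0 2 2 (by decide) (by decide)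
      have hp' : A 1 1 ≠ 0 := hp
      rw [e1, e2, e3, e4, e5] at htr
      have h5 : A 1 1 * D 1 1 = 0 := by linarith
      exact ⟨e1, e2, e3, (mul_eq_zero.1 h5).resolve_left hp', e4, e5⟩
    · have e1 := h0 0 0 (by decide) (by decide)
      have e2 := h0 0 1 (by decide) (by decide)
      have e3 := h0 0 2 (by decide) (by decide)
      have e4 := h0 1 1 (by decide) (by decide)
      have e5 := h0 2 2 (by decide) (by decide)
      have hp' : A 1 2 ≠ 0 := hp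
      rw [e1, e2, e3, e4, e5] at htr
      have h5 : A 1 2 * D 1 2 = 0 := by linarith
      exact ⟨e1, e2, e3, e4, (mul_eq_zero.1 h5).resolve_left hp', e5⟩
    · exact absurd hple (by decide)
    · exact absurd hple (by decide)
    · have e1 := h0 0 0 (by decide) (by decide)
      have e2 := h0 0 1 (by decide) (by decide)
      have e3 := h0 0 2 (by decide) (by decide)
      have e4 := h0 1 1 (by decide) (by decide)
      have e5 := h0 1 2 (by decide) (by decide)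
      have hp' : A 2 2 ≠ 0 := hp
      rw [e1, e2, e3, e4, e5] at htr
      have h5 : A 2 2 * D 2 2 = 0 := by linarith
      exact ⟨e1, e2, e3, e4, e5, (mul_eq_zero.1 h5).resolve_left hp'⟩
  obtain ⟨e1, e2, e3, e4, e5, e6⟩ := key
  apply Matrix.ext
  intro i j
  rw [Matrix.zero_apply]
  fin_cases i <;> fin_cases j
  · exact e1
  · exact e2
  · exact e3
  · exact hD1.trans e2
  · exact e4
  · exact e5
  · exact hD2.trans e3
  · exact hD3.trans e5
  · exact e6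

lemma exists_pivot {G : Matrix (Fin 3) (Fin 3) ℤ} (hGs : G.IsSymm) (hG : G.det ≠ 0) :
    ∃ p : Fin 3 × Fin 3, p.1 ≤ p.2 ∧ G.adjugate p.1 p.2 ≠ 0 := by
  have hs : G.adjugate.IsSymm := by
    show G.adjugateᵀ = G.adjugate
    rw [Matrix.adjugate_transpose, hGs]
  by_contra hcon
  push Not at hcon
  apply hG
  have h0 : G.adjugate = 0 := by
    apply Matrix.ext
    intro i j
    rw [Matrix.zero_apply]
    rcases le_total i j with h | h
    · exact hcon (i, j) h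
    · rw [← hs.apply]
      exact hcon (j, i) h
  have h1 := Matrix.mul_adjugate G
  rw [h0, Matrix.mul_zero] at h1
  have h2 := congrFun (congrFun h1 0) 0
  simpa using h2.symm

/-! ### One prime -/

/-- The matrices modulo `Q`. -/
abbrev LQT (G : Matrix (Fin 3) (Fin 3) ℤ) (s : ℤ → ℤ) (Q : ℤ) : Type :=
  {B : Matrix (Fin 3) (Fin 3) (ZMod Q.natAbs) // B.IsSymm ∧ ChR (G.map (rd Q)) B (rd Q (s Q)) 0 ∧
    ∃ ξ ξ' : Fin 3 → ZMod Q.natAbs, LinearIndependent (ZMod Q.natAbs) ![ξ, ξ'] ∧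
      ξ ⬝ᵥ (G.map (rd Q)) *ᵥ ξ = 0 ∧ ξ ⬝ᵥ B *ᵥ ξ = 0 ∧
      ξ' ⬝ᵥ (G.map (rd Q)) *ᵥ ξ' = 0 ∧ ξ' ⬝ᵥ B *ᵥ ξ' = 0}

lemma card_LQT (h : S_LQ) (G : Matrix (Fin 3) (Fin 3) ℤ) (hGs : G.IsSymm) (s : ℤ → ℤ) {Q : ℤ}
    (hQ : IsPr Q) (hQ8 : Q % 8 = 1) (hs : ∀ z : ℤ, ¬ Q ∣ z ^ 2 + s Q) (hd : ¬ Q ∣ G.det) :
    2 * Nat.card (LQT G s Q) ≤ Q.natAbs ^ 3 := by
  haveI : Fact Q.natAbs.Prime := ⟨pr_nat hQ⟩
  have h2 : (2 : ZMod Q.natAbs) ≠ 0 := by
    have h3 : rd Q 2 ≠ 0 := by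
      intro h0
      rw [rd_zero] at h0
      have h1 := Int.le_of_dvd (by norm_num) h0
      have h2 := hQ.1
      have h3 : Q = 1 := by omega
      have h4 := (pr_nat hQ).one_lt
      rw [h3] at h4
      norm_num at h4
    rwa [map_ofNat] at h3
  have h1 := h (ZMod Q.natAbs) h2 (rd Q (s Q)) (by
    intro z
    obtain ⟨x, rfl⟩ := rd_surj z
    rw [← map_pow, ← map_add]
    intro h0
    rw [rd_zero] at h0
    exact hs x h0) (G.map (rd Q)) (by
      show (G.map (rd Q))ᵀ = G.map (rd Q)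
      rw [← Matrix.transpose_map, hGs]) (by
      have e2 : (G.map (rd Q)).det = rd Q G.det := by
        rw [RingHom.map_det]
        rfl
      rw [e2]
      intro h0
      rw [rd_zero] at h0
      exact hd h0)
  rw [Nat.card_zmod] at h1
  exact h1

lemma map_dot {R R' : Type} [CommRing R] [CommRing R'] (φ : R →+* R')
    (A : Matrix (Fin 3) (Fin 3) R) (ξ : Fin 3 → R) :
    (fun i => φ (ξ i)) ⬝ᵥ (A.map φ) *ᵥ (fun i => φ (ξ i)) = φ (ξ ⬝ᵥ A *ᵥ ξ) := by
  simp only [dotProduct, Matrix.mulVec, Fin.sum_univ_three, Matrix.map_apply, map_add, map_mul]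

lemma tt_map {G B : Matrix (Fin 3) (Fin 3) ℤ} {Q : ℤ} (hQ : IsPr Q) (h : TTM Q G B) :
    ∃ ξ ξ' : Fin 3 → ZMod Q.natAbs, LinearIndependent (ZMod Q.natAbs) ![ξ, ξ'] ∧
      ξ ⬝ᵥ (G.map (rd Q)) *ᵥ ξ = 0 ∧ ξ ⬝ᵥ (B.map (rd Q)) *ᵥ ξ = 0 ∧
      ξ' ⬝ᵥ (G.map (rd Q)) *ᵥ ξ' = 0 ∧ ξ' ⬝ᵥ (B.map (rd Q)) *ᵥ ξ' = 0 := by
  haveI : Fact Q.natAbs.Prime := ⟨pr_nat hQ⟩
  obtain ⟨ξ, ξ', ⟨i, j, hij⟩, h1, h2, h3, h4⟩ := h
  refine ⟨fun i => rd Q (ξ i), fun i => rd Q (ξ' i), ?_, ?_, ?_, ?_, ?_⟩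
  · rw [LinearIndependent.pair_iff]
    intro u v huv
    have hi := congrFun huv i
    have hj := congrFun huv j
    simp only [Pi.add_apply, Pi.smul_apply, smul_eq_mul, Pi.zero_apply] at hi hj
    have hne : rd Q (ξ i) * rd Q (ξ' j) - rd Q (ξ j) * rd Q (ξ' i) ≠ 0 := by
      rw [← map_mul, ← map_mul, ← map_sub]
      intro h0
      exact hij ((rd_zero _ _).1 h0)
    constructor
    · have e : u * (rd Q (ξ i) * rd Q (ξ' j) - rd Q (ξ j) * rd Q (ξ' i)) = 0 := by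
        linear_combination rd Q (ξ' j) * hi - rd Q (ξ' i) * hj
      exact (mul_eq_zero.1 e).resolve_right hne
    · have e : v * (rd Q (ξ i) * rd Q (ξ' j) - rd Q (ξ j) * rd Q (ξ' i)) = 0 := by
        linear_combination rd Q (ξ i) * hj - rd Q (ξ j) * hi
      exact (mul_eq_zero.1 e).resolve_right hne
  · rw [map_dot]; exact (rd_zero _ _).2 h1
  · rw [map_dot]; exact (rd_zero _ _).2 h2
  · rw [map_dot]; exact (rd_zero _ _).2 h3
  · rw [map_dot]; exact (rd_zero _ _).2 h4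

lemma bok_map {G B : Matrix (Fin 3) (Fin 3) ℤ} {R : Finset ℤ} {s : ℤ → ℤ} {N : ℤ} {p : ℤ × ℤ}
    (hB : BOk G R s N B p) {Q : ℤ} (hQR : Q ∈ R) (hQ : IsPr Q) :
    (B.map (rd Q)).IsSymm ∧ ChR (G.map (rd Q)) (B.map (rd Q)) (rd Q (s Q)) 0 ∧
    ∃ ξ ξ' : Fin 3 → ZMod Q.natAbs, LinearIndependent (ZMod Q.natAbs) ![ξ, ξ'] ∧
      ξ ⬝ᵥ (G.map (rd Q)) *ᵥ ξ = 0 ∧ ξ ⬝ᵥ (B.map (rd Q)) *ᵥ ξ = 0 ∧
      ξ' ⬝ᵥ (G.map (rd Q)) *ᵥ ξ' = 0 ∧ ξ' ⬝ᵥ (B.map (rd Q)) *ᵥ ξ' = 0 := by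
  refine ⟨?_, ?_, tt_map hQ (hB.tt Q hQR)⟩
  · show (B.map (rd Q))ᵀ = B.map (rd Q)
    rw [← Matrix.transpose_map, hB.symm]
  · have h1 := chr_map (rd Q) hB.ch
    have h2 : rd Q p.1 = rd Q (s Q) := (rd_eq _ _ _).2 (hB.ra Q hQR)
    have h3 : rd Q p.2 = 0 := (rd_zero _ _).2 (hB.rb Q hQR)
    rwa [h2, h3] at h1

/-- the five free entries -/
abbrev Idx (p : Fin 3 × Fin 3) : Type := {q : Fin 3 × Fin 3 // q.1 ≤ q.2 ∧ q ≠ p}

lemma card_Idx {p : Fin 3 × Fin 3} (hp : p.1 ≤ p.2) : Nat.card (Idx p) = 5 := by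
  rw [Nat.card_eq_fintype_card, Fintype.card_subtype]
  revert p
  have : ∀ p : Fin 3 × Fin 3, p.1 ≤ p.2 →
      (@Finset.filter _ (fun q : Fin 3 × Fin 3 => q.1 ≤ q.2 ∧ q ≠ p)
        (fun _ => instDecidableAnd) Finset.univ).card = 5 := by decide
  intro p hp
  rw [← this p hp]

theorem bxr (h : S_LQ) : S_BXR := by
  intro G R s N hGs hG hS hdet hMN
  obtain ⟨M, hM⟩ : ∃ M : ℤ, M = ∏ Q ∈ R, Q := ⟨_, rfl⟩
  rw [← hM] at hMN ⊢
  have hM0 : 0 < M := by
    rw [hM]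
    exact Finset.prod_pos fun Q hQ => (hS Q hQ).1.1
  have hN0 : 0 < N := lt_of_lt_of_le hM0 hMN
  obtain ⟨p, hple, hp⟩ := exists_pivot hGs hG
  have hadj : G.adjugate.IsSymm := by
    show G.adjugateᵀ = G.adjugate
    rw [Matrix.adjugate_transpose, hGs]
  have hS' : ∀ Q ∈ R, IsPr Q := fun Q hQ => (hS Q hQ).1
  have hmem : ∀ n : ℤ, |n| ≤ N → (n + N) / M ∈ Finset.Icc (0 : ℤ) (2 * N / M) := by
    intro n hn
    rw [Finset.mem_Icc]
    have h1 := abs_le.1 hn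
    constructor
    · exact Int.ediv_nonneg (by linarith) hM0.le
    · exact Int.ediv_le_ediv hM0 (by linarith)
  let Tt : Type := (∀ Q : {Q // Q ∈ R}, LQT G s Q.1) × (Idx p → Finset.Icc (0 : ℤ) (2 * N / M))
  let f : {p : ℤ × ℤ | ∃ B, BOk G R s N B p} → Matrix (Fin 3) (Fin 3) ℤ := fun x => x.2.choose
  have hf : ∀ x, BOk G R s N (f x) x.1 := fun x => x.2.choose_spec
  let Φ : {p : ℤ × ℤ | ∃ B, BOk G R s N B p} → Tt := fun x =>
    (fun Q => ⟨(f x).map (rd Q.1), bok_map (hf x) Q.2 (hS' Q.1 Q.2)⟩,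
      fun i => ⟨(f x i.1.1 i.1.2 + N) / M, hmem _ ((hf x).bd _ _)⟩)
  have hΦ : Function.Injective Φ := by
    intro x y hxy
    have h1 : ∀ Q ∈ R, (f x).map (rd Q) = (f y).map (rd Q) := by
      intro Q hQ
      exact congrArg (fun t : Tt => (t.1 ⟨Q, hQ⟩).1) hxy
    have h2 : ∀ i j, i ≤ j → (i, j) ≠ p → (f x i j + N) / M = (f y i j + N) / M := by
      intro i j hij hne
      exact congrArg (fun t : Tt => ((t.2 ⟨(i, j), hij, hne⟩ : Finset.Icc (0 : ℤ) (2 * N / M)) : ℤ))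
        hxy
    have h3 : ∀ i j, i ≤ j → (i, j) ≠ p → (f x - f y) i j = 0 := by
      intro i j hij hne
      have h4 : f x i j + N = f y i j + N := by
        apply crt_inj hS'
        · intro Q hQ
          rw [map_add, map_add]
          have h5 := congrFun (congrFun (h1 Q hQ) i) j
          rw [Matrix.map_apply, Matrix.map_apply] at h5
          rw [h5]
        · rw [← hM]
          exact h2 i j hij hne
      rw [Matrix.sub_apply]
      linarith
    have h4 : f x - f y = 0 := by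
      refine pivot hadj hple hp ((hf x).symm.sub (hf y).symm) ?_ h3
      rw [Matrix.mul_sub, Matrix.trace_sub, chr_tr (hf x).ch, chr_tr (hf y).ch, sub_zero]
    have h5 : f x = f y := sub_eq_zero.1 h4
    have h6 := (hf x).ch
    rw [h5] at h6
    obtain ⟨h7, h8⟩ := chr_ab hG h6 (hf y).ch
    exact Subtype.ext (Prod.ext h7 h8)
  haveI : ∀ Q : {Q // Q ∈ R}, Finite (LQT G s Q.1) := fun Q => by
    haveI : Fact Q.1.natAbs.Prime := ⟨pr_nat (hS Q.1 Q.2).1⟩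
    infer_instance
  haveI : Finite Tt := inferInstanceAs (Finite ((∀ Q : {Q // Q ∈ R}, LQT G s Q.1) × _))
  haveI hfin : Finite {p : ℤ × ℤ | ∃ B, BOk G R s N B p} := Finite.of_injective Φ hΦ
  refine ⟨Set.toFinite _, ?_⟩
  have h1 := Nat.card_le_card_of_injective Φ hΦ
  rw [Nat.card_coe_set_eq] at h1
  obtain ⟨c, hc⟩ : ∃ c : ℕ, c = Nat.card (Finset.Icc (0 : ℤ) (2 * N / M)) := ⟨_, rfl⟩
  have hcard : Nat.card Tt = (∏ Q ∈ R, Nat.card (LQT G s Q)) * c ^ 5 := by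
    show Nat.card ((∀ Q : {Q // Q ∈ R}, LQT G s Q.1) × _) = _
    rw [Nat.card_prod, Nat.card_pi, Finset.prod_coe_sort R (fun Q => Nat.card (LQT G s Q)),
      Nat.card_fun, card_Idx hple, hc]
  have hcM : (c : ℤ) * M ≤ 3 * N := by
    have h2 : (c : ℤ) = 2 * N / M + 1 := by
      rw [hc, Nat.card_eq_fintype_card, Fintype.card_coe, Int.card_Icc]
      have : 0 ≤ 2 * N / M := Int.ediv_nonneg (by linarith) hM0.le
      omega
    have h3 := Int.ediv_mul_le (2 * N) hM0.ne'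
    rw [h2]
    linarith
  have h2 : 2 ^ R.card * ∏ Q ∈ R, Nat.card (LQT G s Q) ≤ ∏ Q ∈ R, Q.natAbs ^ 3 := by
    rw [← Finset.prod_const, ← Finset.prod_mul_distrib]
    exact Finset.prod_le_prod' fun Q hQ =>
      card_LQT h G hGs s (hS Q hQ).1 (hS Q hQ).2.1 (hS Q hQ).2.2 (hdet Q hQ)
  have h3 : ((∏ Q ∈ R, Q.natAbs ^ 3 : ℕ) : ℤ) = M ^ 3 := by
    rw [hM]
    push_cast
    rw [← Finset.prod_pow]
    refine Finset.prod_congr rfl fun Q hQ => ?_
    rw [abs_of_pos (hS Q hQ).1.1]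
  have h1' : ((({p : ℤ × ℤ | ∃ B, BOk G R s N B p}.ncard : ℕ)) : ℤ) ≤
      (∏ Q ∈ R, Nat.card (LQT G s Q) : ℕ) * (c : ℤ) ^ 5 := by
    rw [hcard] at h1
    exact_mod_cast h1
  have h2' : (2 ^ R.card * ((∏ Q ∈ R, Nat.card (LQT G s Q) : ℕ) : ℤ)) ≤ M ^ 3 := by
    rw [← h3]
    exact_mod_cast h2
  calc (2 ^ R.card * M ^ 2 * ({p : ℤ × ℤ | ∃ B, BOk G R s N B p}.ncard : ℤ) : ℤ)
      ≤ 2 ^ R.card * M ^ 2 * ((∏ Q ∈ R, Nat.card (LQT G s Q) : ℕ) * (c : ℤ) ^ 5) :=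
        mul_le_mul_of_nonneg_left h1' (by positivity)
    _ = (2 ^ R.card * ((∏ Q ∈ R, Nat.card (LQT G s Q) : ℕ) : ℤ)) * (M ^ 2 * (c : ℤ) ^ 5) := by
        ring
    _ ≤ M ^ 3 * (M ^ 2 * (c : ℤ) ^ 5) :=
        mul_le_mul_of_nonneg_right h2' (by positivity)
    _ = ((c : ℤ) * M) ^ 5 := by ring
    _ ≤ (3 * N) ^ 5 := pow_le_pow_left₀ (by positivity) hcM 5
    _ = 243 * N ^ 5 := by ring

end Pool.Agent.H263.AR458
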